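import Pool.Agent.R790.Ssi.Dbl

/-! Vertex transitive sub scale invariant graphs have volume doubling. -/

set_option autoImplicit false

namespace Pool.Agent.Results.MP_6f70ff_gt.Doubling

open Pool.Agent.R790.Ssi

/-- Every connected, locally finite, vertex transitive graph which is sub scale invariant has
volume doubling. -/
theorem result {V : Type} (G : SimpleGraph V) (hc : G.Connected)
    (hlf : ∀ v, (G.neighborSet v).Finite) (ht : VertexTransitive G)
    (hs : SubScaleInvariant G) : VolumeDoubling G :=
  doubling hc hlf ht hs

end Pool.Agent.Results.MP_6f70ff_gt.Doubling
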