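import Pool.Agent.R790.Ssi.Line

/-! A vertex transitive sub scale invariant graph: the bi-infinite path. -/

set_option autoImplicit false

namespace Pool.Agent.Results.MP_6f70ff_gt.LineSubScaleInvariant

open Pool.Agent.R790.Ssi

/-- The bi-infinite path is an infinite, connected, locally finite, vertex transitive graph which
is sub scale invariant; in fact its constant for every `k ≥ 1` and every `k`-net is exactly `1`. -/
theorem result :
    Infinite ℤ ∧ zLine.Connected ∧ (∀ v, (zLine.neighborSet v).Finite) ∧
      VertexTransitive zLine ∧ SubScaleInvariant zLine ∧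
      ∀ (k : ℕ) (N : Set ℤ), 1 ≤ k → IsNet zLine k N → roughConst zLine k N = 1 :=
  ⟨inferInstance, zconn, line_lf, line_trans, line_ssi, fun _ _ hk hN => roughConst_line hk hN⟩

end Pool.Agent.Results.MP_6f70ff_gt.LineSubScaleInvariant
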